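import Pool.Agent.H61.FM.Targets

set_option autoImplicit false

open MeasureTheory Set Filter NumberField
open scoped Real nonZeroDivisors

namespace Pool.Agent.H86.FM

open Pool.Agent.H31.CN Pool.Agent.H89.FM Pool.Agent.H61.FM

theorem full_one : Full 1 := fun _ hp h => absurd (Nat.dvd_one.mp h) hp.ne_one

theorem full_mul {a b : ℕ} (ha : Full a) (hb : Full b) : Full (a * b) := by
  intro p hp h
  rcases (hp.dvd_mul).mp h with h | h
  · exact (ha p hp h).mul_right b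
  · exact (hb p hp h).mul_left a

theorem dec_exists (n : ℕ) (hn : 0 < n) :
    ∃ b m : ℕ, Full b ∧ Squarefree m ∧ m.Coprime b ∧ b * m = n := by
  induction n using Nat.recOnPosPrimePosCoprime with
  | prime_pow p k hp hk =>
    rcases Nat.lt_or_ge k 2 with h | h
    · have : k = 1 := by omega
      subst this
      exact ⟨1, p, full_one, hp.prime.squarefree, Nat.coprime_one_right p, by simp⟩
    · refine ⟨p ^ k, 1, ?_, squarefree_one, Nat.coprime_one_left _, by simp⟩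
      intro q hq hd
      have : q ∣ p := hq.dvd_of_dvd_pow hd
      have : q = p := (Nat.prime_dvd_prime_iff_eq hq hp).mp this
      subst this
      exact pow_dvd_pow q h
  | zero => exact absurd hn (lt_irrefl 0)
  | one => exact ⟨1, 1, full_one, squarefree_one, Nat.coprime_one_left _, rfl⟩
  | coprime x y hx hy hxy ihx ihy =>
    obtain ⟨b, m, hb, hm, hmb, e⟩ := ihx (by omega)
    obtain ⟨b', m', hb', hm', hmb', e'⟩ := ihy (by omega)
    have hbx : b ∣ x := ⟨m, e.symm⟩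
    have hmx : m ∣ x := ⟨b, by rw [mul_comm]; exact e.symm⟩
    have hby : b' ∣ y := ⟨m', e'.symm⟩
    have hmy : m' ∣ y := ⟨b', by rw [mul_comm]; exact e'.symm⟩
    refine ⟨b * b', m * m', full_mul hb hb', ?_, ?_, ?_⟩
    · exact (Nat.squarefree_mul (Nat.Coprime.of_dvd hmx hmy hxy)).mpr ⟨hm, hm'⟩
    · refine Nat.Coprime.mul_left ?_ ?_
      · exact Nat.Coprime.mul_right hmb (Nat.Coprime.of_dvd hmx hby hxy)
      · exact Nat.Coprime.mul_right (Nat.Coprime.of_dvd hmy hbx hxy.symm) hmb'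
    · rw [← e, ← e']; ring

theorem dec_aux {b m b' m' : ℕ} (hm : Squarefree m) (hmb : m.Coprime b)
    (hb' : Full b') (e : b * m = b' * m') : m ∣ m' := by
  have hm0 : m ≠ 0 := hm.ne_zero
  rw [← Nat.prod_primeFactors_of_squarefree hm]
  refine Finset.prod_primes_dvd m' (fun p hp => (Nat.prime_of_mem_primeFactors hp).prime) ?_
  intro p hp
  have hpp := Nat.prime_of_mem_primeFactors hp
  have hpm := Nat.dvd_of_mem_primeFactors hp
  have h1 : p ∣ b' * m' := by rw [← e]; exact hpm.mul_left b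
  rcases (hpp.dvd_mul).mp h1 with h | h
  · exfalso
    have h2 : p ^ 2 ∣ b * m := by rw [e]; exact (hb' p hpp h).mul_right m'
    have hpb : ¬ p ∣ b := fun hd => by
      have := Nat.dvd_gcd hpm hd
      rw [Nat.Coprime] at hmb
      rw [hmb] at this
      exact hpp.one_lt.ne' (Nat.dvd_one.mp this)
    have hcop : (p ^ 2).Coprime b := Nat.Coprime.pow_left 2 ((Nat.Prime.coprime_iff_not_dvd hpp).mpr hpb)
    have h3 : p ^ 2 ∣ m := hcop.dvd_of_dvd_mul_left h2
    have h4 := hm p (by rw [← pow_two]; exact h3)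
    exact hpp.one_lt.ne' (Nat.isUnit_iff.mp h4)
  · exact h

theorem dec_unique {b m b' m' : ℕ} (hb : Full b) (hm : Squarefree m) (hmb : m.Coprime b)
    (hb' : Full b') (hm' : Squarefree m') (hmb' : m'.Coprime b')
    (e : b * m = b' * m') : b = b' ∧ m = m' := by
  have h1 := dec_aux hm hmb hb' e
  have h2 := dec_aux hm' hmb' hb e.symm
  have h3 : m = m' := Nat.dvd_antisymm h1 h2
  subst h3
  exact ⟨Nat.eq_of_mul_eq_mul_right (Nat.pos_of_ne_zero hm.ne_zero) e, rfl⟩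

theorem pf_SQD : T_SQD := by
  classical
  intro a ha N
  have h1 : ∀ b ∈ (Finset.Icc 1 N).filter Full,
      a b * ∑ m ∈ Sq (N / b), (if m.Coprime b then a m else 0) =
      ∑ m ∈ (Sq (N / b)).filter (fun m => m.Coprime b), a (b * m) := by
    intro b _
    rw [← Finset.sum_filter, Finset.mul_sum]
    refine Finset.sum_congr rfl fun m hm => ?_
    rw [Finset.mem_filter] at hm
    exact (ha b m hm.2.symm).symm
  rw [Finset.sum_congr rfl h1, Finset.sum_sigma']
  symm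
  refine Finset.sum_bij (fun x _ => x.1 * x.2) ?_ ?_ ?_ ?_
  · rintro ⟨b, m⟩ hx
    simp only [Finset.mem_sigma, Finset.mem_filter, Finset.mem_Icc, Sq] at hx
    obtain ⟨⟨⟨hb1, hb2⟩, hb3⟩, ⟨⟨hm1, hm2⟩, hm3⟩, hm4⟩ := hx
    rw [Finset.mem_Icc]
    refine ⟨Nat.mul_pos hb1 hm1, ?_⟩
    have := (Nat.le_div_iff_mul_le (by omega : 0 < b)).mp hm2
    rw [mul_comm]; exact this
  · rintro ⟨b, m⟩ hx ⟨b', m'⟩ hx' e
    simp only [Finset.mem_sigma, Finset.mem_filter, Finset.mem_Icc, Sq] at hx hx'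
    obtain ⟨⟨⟨hb1, hb2⟩, hb3⟩, ⟨⟨hm1, hm2⟩, hm3⟩, hm4⟩ := hx
    obtain ⟨⟨⟨hb1', hb2'⟩, hb3'⟩, ⟨⟨hm1', hm2'⟩, hm3'⟩, hm4'⟩ := hx'
    obtain ⟨e1, e2⟩ := dec_unique hb3 hm3 hm4 hb3' hm3' hm4' e
    subst e1; subst e2; rfl
  · intro n hn
    rw [Finset.mem_Icc] at hn
    obtain ⟨b, m, hb, hm, hmb, e⟩ := dec_exists n (by omega)
    have hm0 : 0 < m := Nat.pos_of_ne_zero hm.ne_zero
    have hb0 : 0 < b := Nat.pos_of_ne_zero (fun h => by rw [h, zero_mul] at e; omega)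
    refine ⟨⟨b, m⟩, ?_, e⟩
    simp only [Finset.mem_sigma, Finset.mem_filter, Finset.mem_Icc, Sq]
    refine ⟨⟨⟨hb0, ?_⟩, hb⟩, ⟨⟨hm0, ?_⟩, hm⟩, hmb⟩
    · calc b ≤ b * m := Nat.le_mul_of_pos_right b hm0
        _ ≤ N := by rw [e]; exact hn.2
    · rw [Nat.le_div_iff_mul_le hb0, mul_comm, e]; exact hn.2
  · rintro ⟨b, m⟩ _
    rfl

end Pool.Agent.H86.FM
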